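import Mathlib
import Pool.Agent.Lib.CHEB.Main
import Pool.Agent.Lib.H13S.EXV
import Pool.Agent.Lib.H13S.VW
import Pool.Agent.Lib.H13S.Defs

/-! # H55X: Chebotarev's theorem in terms of valuation rings of the algebraic closure -/

open NumberField IsDedekindDomain

namespace H55X

open H13S (Abv)

/-- The Frobenius congruence for elements which are integral at the prime. -/
theorem e_int {K N : Type} [Field K] [Field N] [NumberField N] [Algebra K N]
    (W : HeightOneSpectrum (𝓞 N)) (s : N ≃ₐ[K] N) (Q : ℕ) (hs : ∀ x : 𝓞 N, s • x - x ^ Q ∈ W.asIdeal) (x : N)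
    (hx : W.valuation N x ≤ 1) : W.valuation N (s x - x ^ Q) < 1 := by
  obtain ⟨n, d, hnd⟩ := W.exists_primeCompl_mul_eq_of_integer x hx
  have hd : (d : 𝓞 N) ∉ W.asIdeal := d.2
  have hP := W.isPrime
  have hdQ : (d : 𝓞 N) ^ Q ∉ W.asIdeal := fun h => hd (hP.mem_of_pow_mem Q h)
  have hsd : s • (d : 𝓞 N) ∉ W.asIdeal := by
    intro h1
    have h2 := W.asIdeal.sub_mem h1 (hs d)
    rw [sub_sub_cancel] at h2
    exact hdQ h2
  have hcoe : ∀ z : 𝓞 N, algebraMap (𝓞 N) N (s • z) = s (algebraMap (𝓞 N) N z) := fun z => rfl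
  have hv : ∀ z : 𝓞 N, z ∉ W.asIdeal → W.valuation N (algebraMap (𝓞 N) N z) = 1 := fun z hz =>
    le_antisymm (W.valuation_le_one _) (not_lt.1 fun h3 => hz ((W.valuation_lt_one_iff_mem _).1 h3))
  have hx2 : s x * algebraMap (𝓞 N) N (s • (d : 𝓞 N)) = algebraMap (𝓞 N) N (s • (n : 𝓞 N)) := by
    rw [hcoe, hcoe, ← map_mul, hnd]
  have hnum : (s x - x ^ Q) * (algebraMap (𝓞 N) N (s • (d : 𝓞 N)) * algebraMap (𝓞 N) N ((d : 𝓞 N) ^ Q)) =
      algebraMap (𝓞 N) N ((s • n - n ^ Q) * d ^ Q - n ^ Q * (s • (d : 𝓞 N) - d ^ Q) : 𝓞 N) := by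
    rw [map_sub, map_mul, map_mul, map_sub, map_sub, map_pow, map_pow, ← hnd, ← hx2]
    ring
  have hmem : ((s • n - n ^ Q) * d ^ Q - n ^ Q * (s • (d : 𝓞 N) - d ^ Q) : 𝓞 N) ∈ W.asIdeal :=
    W.asIdeal.sub_mem (W.asIdeal.mul_mem_right _ (hs n)) (W.asIdeal.mul_mem_left _ (hs d))
  have h3 := congrArg (W.valuation N) hnum
  rw [map_mul, map_mul, hv _ hsd, hv _ hdQ, mul_one, mul_one] at h3
  rw [h3]
  exact (W.valuation_lt_one_iff_mem _).2 hmem

/-- A prime of L with a given Frobenius element, up to conjugation, on finitely many elements. -/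
theorem e_cheb {F Ω : Type} [Field F] [NumberField F] [Field Ω] [Algebra F Ω] [IsAlgClosure F Ω] (L : IntermediateField F Ω)
    [NumberField L] (σ : Ω ≃ₐ[F] Ω) (hσ : σ ∈ L.fixingSubgroup) (X : Finset Ω) (S : Set (HeightOneSpectrum (𝓞 L))) (hS : S.Finite) :
    ∃ (q : HeightOneSpectrum (𝓞 L)) (V : ValuationSubring Ω), q ∉ S ∧ Abv L V q ∧
      ∀ x ∈ X, x ∈ V → V.valuation (σ x - x ^ Ideal.absNorm q.asIdeal) < 1 := by
  classical
  have hac : IsAlgClosed Ω := IsAlgClosure.isAlgClosed F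
  have hal : Algebra.IsAlgebraic F Ω := IsAlgClosure.isAlgebraic
  have hal' : Algebra.IsAlgebraic L Ω := Algebra.IsAlgebraic.tower_top (K := F) L
  have hL : IsAlgClosure L Ω := ⟨hac, hal'⟩
  have hcz : CharZero Ω := charZero_of_injective_algebraMap (algebraMap F Ω).injective
  obtain ⟨σL, hσL⟩ : ∃ σL : Ω ≃ₐ[L] Ω, ∀ x, σL x = σ x :=
    ⟨IntermediateField.fixingSubgroupEquiv L ⟨σ, hσ⟩, fun x => rfl⟩
  let M : IntermediateField L Ω := IntermediateField.adjoin L (X : Set Ω)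
  have hMf : FiniteDimensional L M := IntermediateField.finiteDimensional_adjoin fun x _ => (Algebra.IsAlgebraic.isAlgebraic x).isIntegral
  let N : IntermediateField L Ω := IntermediateField.normalClosure L M Ω
  have hNf : FiniteDimensional L N := inferInstance
  have hNn : Normal L N := inferInstance
  have hMN : M ≤ N := IntermediateField.le_normalClosure M
  have hNQ : FiniteDimensional ℚ N := FiniteDimensional.trans ℚ L N
  have hchar : CharZero N := charZero_of_injective_algebraMap (algebraMap L N).injective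
  have hNnf : NumberField N := ⟨⟩
  have hG : IsGalois L N := ⟨⟩
  have hinf := CFT.chebotarev_infinite L N (σL.restrictNormal N)
  obtain ⟨q, ⟨-, W, hW, hfr⟩, hqS⟩ := hinf.exists_notMem_finset hS.toFinset
  rw [Set.Finite.mem_toFinset] at hqS
  obtain ⟨V, hV⟩ := H13S.exists_above N W
  have hfr' : ∀ x : 𝓞 N, (σL.restrictNormal N) • x - x ^ Ideal.absNorm q.asIdeal ∈ W.asIdeal := by
    intro x
    have h1 := hfr x
    rwa [hW] at h1
  -- V is above q
  have hq : ∀ a : 𝓞 L, V.valuation ((a : L) : Ω) < 1 ↔ a ∈ q.asIdeal := by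
    intro a
    have e1 : ((a : L) : Ω) = (((algebraMap (𝓞 L) (𝓞 N) a : 𝓞 N) : N) : Ω) := rfl
    rw [e1, H13S.Abv.lt hV, W.valuation_lt_one_iff_mem, ← hW]
    rfl
  obtain ⟨a, ha, ha0⟩ := Submodule.exists_mem_ne_zero_of_ne_bot q.ne_bot
  have hne : ∃ x : L, (x : Ω) ∉ V := by
    refine ⟨(a : L)⁻¹, fun hmem => ?_⟩
    have h1 : V.valuation (((a : L)⁻¹ : L) : Ω) ≤ 1 := (V.valuation_le_one_iff _).2 hmem
    have h2 := (hq a).2 ha
    have h3 : ((a : L) : Ω) ≠ 0 := by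
      intro h
      apply ha0
      have h4 : (a : L) = 0 := by exact_mod_cast h
      exact RingOfIntegers.coe_eq_zero_iff.1 h4
    have h4 : V.valuation (((a : L) : Ω) * (((a : L)⁻¹ : L) : Ω)) < 1 := by
      rw [map_mul]
      exact mul_lt_one_of_lt_of_le h2 h1
    have h5 : ((a : L) : Ω) * (((a : L)⁻¹ : L) : Ω) = 1 := by
      push_cast
      exact mul_inv_cancel₀ h3
    rw [h5, map_one] at h4
    exact lt_irrefl _ h4
  obtain ⟨w, hw⟩ := H13S.exists_below L V hne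
  have hwq : w = q := by
    apply HeightOneSpectrum.ext
    ext b
    rw [← w.valuation_lt_one_iff_mem (K := L) b, ← hq b, ← H13S.Abv.lt hw]
  subst hwq
  refine ⟨w, V, hqS, hw, fun x hx hxV => ?_⟩
  have hxN : x ∈ N := hMN (IntermediateField.subset_adjoin L _ hx)
  have h1 := e_int W (σL.restrictNormal N) _ hfr' ⟨x, hxN⟩ ((hV _).1 hxV)
  rw [← H13S.Abv.lt hV] at h1
  have h2 : (((σL.restrictNormal N) ⟨x, hxN⟩ : N) : Ω) = σ x := by
    have h3 := AlgEquiv.restrictNormal_commutes σL N ⟨x, hxN⟩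
    have h4 : algebraMap N Ω ((σL.restrictNormal N) ⟨x, hxN⟩) = σL x := h3
    rw [← hσL]
    exact h4
  have h3 : (((σL.restrictNormal N) ⟨x, hxN⟩ - (⟨x, hxN⟩ : N) ^ Ideal.absNorm w.asIdeal : N) : Ω) = σ x - x ^ Ideal.absNorm w.asIdeal := by
    push_cast
    rw [h2]
  rwa [h3] at h1

end H55X
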