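import Mathlib
import Pool.Agent.Lib.H55K.T6B
import Pool.Agent.Lib.H55K.SKR
import Pool.Agent.Lib.H55K.SPA2
import Pool.Agent.Lib.H55P.S1

/-! # H55X: the inertia groups act transitively on the nonzero points killed by a prime element -/

open NumberField IsDedekindDomain WeierstrassCurve

namespace H55X

open H55P (IQ Pt ac Inert Dec Nm)
open H35P (WAB Ker tt)
open H55K H55K.S

variable {F : Type} [Field F] [NumberField F] [IQ F] {A B : F} {Om : ℂ} {Ω : Type} [Field Ω] [DecidableEq Ω]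
  [Algebra F Ω] [IsAlgClosure F Ω] {j : Ω →+* ℂ} {act : 𝓞 F →+* AddMonoid.End (Pt (WAB A B) Ω)} {V : ValuationSubring Ω}

omit [Field F] [NumberField F] [IQ F] [DecidableEq Ω] [Algebra F Ω] [IsAlgClosure F Ω] in
theorem a_mul {F : Type} [Field F] [Algebra F Ω] {s t : Ω ≃ₐ[F] Ω} (hs : Inert V s) (ht : Inert V t) : Inert V (s * t) :=
  (H55P.inS F V).mul_mem hs ht

/-- The inertia group acts transitively on the nonzero points killed by a prime element below V. -/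
theorem orbit (hA : CMA F A B Om j act) (hG : GV A B V) {π : 𝓞 F} (hπ : Prime π) (hV : vo V π < 1) {T₀ T : Pt (WAB A B) Ω}
    (h0 : T₀ ∈ Tor act π) (h0' : T₀ ≠ 0) (h1 : T ∈ Tor act π) (h1' : T ≠ 0) :
    ∃ s : Ω ≃ₐ[F] Ω, Inert V s ∧ ac (WAB A B) s T₀ = T := by
  classical
  obtain ⟨S, hS, hcard⟩ := exists_TN hA hπ.ne_zero
  obtain ⟨X, hX⟩ : ∃ X : Finset (Pt (WAB A B) Ω), X = S.filter fun P => ∃ s : Ω ≃ₐ[F] Ω, Inert V s ∧ ac (WAB A B) s T₀ = P := ⟨_, rfl⟩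
  have hXm : ∀ P, P ∈ X ↔ ∃ s : Ω ≃ₐ[F] Ω, Inert V s ∧ ac (WAB A B) s T₀ = P := by
    intro P
    rw [hX, Finset.mem_filter]
    refine ⟨fun h => h.2, fun h => ⟨?_, h⟩⟩
    obtain ⟨s, -, rfl⟩ := h
    rw [hS]
    exact ⟨mem_Tor.1 (ac_mem hA s h0), ac_ne s h0'⟩
  have hXS : X ⊆ S := by
    rw [hX]
    exact Finset.filter_subset _ _
  have hq : 0 < Nm π - 1 := by
    rw [← hcard, Finset.card_pos]
    exact ⟨T₀, (hS T₀).2 ⟨mem_Tor.1 h0, h0'⟩⟩
  have hval : ∀ P ∈ S, V.valuation (tt P) ^ (Nm π - 1) = vo V π := fun P hP =>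
    (kr_tor_ram hA hG π hπ hV (mem_Tor.2 ((hS P).1 hP).1) ((hS P).1 hP).2).2
  obtain ⟨x, hx⟩ : ∃ x : Ω, x = ∏ P ∈ X, tt P := ⟨_, rfl⟩
  have hfix : ∀ g : Ω ≃ₐ[F] Ω, Inert V g → g x = x := by
    intro g hg
    rw [hx, map_prod]
    refine Finset.prod_bij (fun P _ => ac (WAB A B) g P) ?_ ?_ ?_ ?_
    · intro P hP
      rw [hXm] at hP ⊢
      obtain ⟨s, hs, rfl⟩ := hP
      exact ⟨g * s, a_mul hg hs, H55K.S.ac_mul g s T₀⟩
    · intro P _ Q _ h
      exact ac_inj g h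
    · intro Q hQ
      rw [hXm] at hQ
      obtain ⟨s, hs, rfl⟩ := hQ
      refine ⟨ac (WAB A B) (g⁻¹ * s) T₀, ?_, ?_⟩
      · rw [hXm]
        exact ⟨g⁻¹ * s, a_mul ((H55P.inS F V).inv_mem hg) hs, rfl⟩
      · rw [← H55K.S.ac_mul, mul_inv_cancel_left]
    · intro P _
      exact (tt_ac g P).symm
  have hne : ∀ P ∈ S, tt P ≠ 0 := by
    intro P hP h
    have h2 := hval P hP
    rw [h, map_zero, zero_pow hq.ne'] at h2
    exact vo_ne V hπ.ne_zero h2.symm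
  have hx0 : x ≠ 0 := by
    rw [hx, Finset.prod_ne_zero_iff]
    exact fun P hP => hne P (hXS hP)
  obtain ⟨a, ha0, ha⟩ := H55K.TQ.t6_fixed hx0 hfix
  obtain ⟨k, hk⟩ := qv_intpow V hπ hV a ha0
  have hxq : V.valuation x ^ (Nm π - 1) = vo V π ^ X.card := by
    rw [hx, map_prod, ← Finset.prod_pow, Finset.prod_congr rfl (fun P hP => hval P (hXS hP)), Finset.prod_const]
  have hpos : 0 < vo V π := zero_lt_iff.2 (vo_ne V hπ.ne_zero)
  have hkq : k * ((Nm π - 1 : ℕ) : ℤ) = (X.card : ℤ) := by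
    rw [ha, hk, ← zpow_natCast, ← zpow_mul, ← zpow_natCast] at hxq
    exact zpow_right_injective₀ hpos hV.ne hxq
  have hX1 : 0 < X.card := by
    rw [Finset.card_pos]
    exact ⟨T₀, (hXm T₀).2 ⟨1, (H55P.inS F V).one_mem, ac_one T₀⟩⟩
  have hle : S.card ≤ X.card := by
    rw [hcard]
    refine Nat.le_of_dvd hX1 ?_
    rw [← Int.natCast_dvd_natCast]
    exact ⟨k, by rw [← hkq, mul_comm]⟩
  have hXS' := Finset.eq_of_subset_of_card_le hXS hle
  exact (hXm T).1 (hXS' ▸ (hS T).2 ⟨mem_Tor.1 h1, h1'⟩)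

/-- Every integer which is not divisible by π gives the action of an inertia element on the points killed by π. -/
theorem inert_act (hA : CMA F A B Om j act) (hG : GV A B V) {π : 𝓞 F} (hπ : Prime π) (hV : vo V π < 1) {c : 𝓞 F} (hc : ¬ π ∣ c) :
    ∃ s : Ω ≃ₐ[F] Ω, Inert V s ∧ ∀ T ∈ Tor act π, ac (WAB A B) s T = act c T := by
  obtain ⟨-, T₀, hT₀, hgen, hz⟩ := gi_gen hA π hπ
  have h0 : T₀ ≠ 0 := by
    intro h
    exact hπ.not_isUnit (isUnit_of_dvd_one ((hz 1).1 (by rw [h, map_zero])))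
  obtain ⟨s, hs, h1⟩ := orbit hA hG hπ hV hT₀ h0 (act_tor (b := c) hT₀) (fun h => hc ((hz c).1 h))
  refine ⟨s, hs, fun T hT => ?_⟩
  obtain ⟨a, rfl⟩ := hgen T hT
  rw [ac_act hA, h1, ← act_mul, ← act_mul, mul_comm]

omit [IsAlgClosure F Ω] in
/-- Inertia acts trivially on the points killed by an element which is a unit at V. -/
theorem inert_triv (hA : CMA F A B Om j act) (hG : GV A B V) {b : 𝓞 F} (hb : vo V b = 1) {s : Ω ≃ₐ[F] Ω} (hs : Inert V s)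
    {T : Pt (WAB A B) Ω} (hT : T ∈ Tor act b) : ac (WAB A B) s T = T := by
  have h1 : ac (WAB A B) s T - T ∈ Tor act b := (Tor act b).sub_mem (ac_mem hA s hT) hT
  exact sub_eq_zero.1 (kr_tor hA hG b hb h1 (kr_inert hG s hs T))

end H55X
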