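import Mathlib
import Pool.Agent.Lib.H55X.A
import Pool.Agent.Lib.H55K.RF
import Pool.Agent.Lib.H55K.SHC
import Pool.Agent.Lib.H55K.SDI

/-! # H55X: an element of the Galois group which fixes the roots of unity of order p^k and no point of order p -/

open NumberField IsDedekindDomain WeierstrassCurve

namespace H55X

open H55P (IQ Pt ac Inert Dec Nm)
open H35P (WAB Ker tt)
open H55K H55K.S

section arith

variable {F : Type} [Field F] [NumberField F] [IQ F]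

/-- An integer which differs from its conjugate modulo all primes above p. -/
theorem b_c {p : ℕ} (hp : p.Prime) (hp2 : p ≠ 2) (unr : ∀ v : HeightOneSpectrum (𝓞 F), (p : 𝓞 F) ∉ v.asIdeal ^ 2) :
    ∃ c : 𝓞 F, IsCoprime (c - cj c) (p : 𝓞 F) := by
  obtain ⟨π, hπ, hd⟩ := exists_prime_above (F := F) hp
  rcases dichotomy hp unr hπ hd with ⟨-, -, h3⟩ | ⟨h1, h2, -, h4⟩
  · obtain ⟨c, hc⟩ : ∃ c : 𝓞 F, ¬ (p : 𝓞 F) ∣ c - cj c := by
      by_contra h
      push Not at h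
      exact H55K.TQ.rf_card hp hp2 h
    exact ⟨c, ((h3.symm.prime hπ).irreducible.coprime_iff_not_dvd.2 hc).symm⟩
  · refine ⟨π, ?_⟩
    rw [← h4]
    refine IsCoprime.mul_right ?_ ?_
    · refine (hπ.irreducible.coprime_iff_not_dvd.2 fun h => h1 ?_).symm
      have h5 := dvd_sub (dvd_refl π) h
      rwa [sub_sub_cancel] at h5
    · refine ((cj_prime hπ).irreducible.coprime_iff_not_dvd.2 fun h => h2 ?_).symm
      have h5 := dvd_add h (dvd_refl (cj π))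
      rwa [sub_add_cancel] at h5

/-- A translate by an integer is prime to p. -/
theorem b_t {p : ℕ} (hp : p.Prime) (h5 : 5 ≤ p) (unr : ∀ v : HeightOneSpectrum (𝓞 F), (p : 𝓞 F) ∉ v.asIdeal ^ 2) (c : 𝓞 F) :
    ∃ t : ℕ, IsCoprime (c + (t : 𝓞 F)) (p : 𝓞 F) := by
  obtain ⟨π, hπ, hd⟩ := exists_prime_above (F := F) hp
  have hd' : cj π ∣ (p : 𝓞 F) := by
    rw [cj_dvd, cj_nat]
    exact hd
  have key : ∀ β : 𝓞 F, Prime β → β ∣ (p : 𝓞 F) → ∀ a b : ℕ, a < b → b < 3 → β ∣ c + (a : 𝓞 F) → β ∣ c + (b : 𝓞 F) → False := by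
    intro β hβ hβp a b hab hb3 h1 h2
    have h3 := dvd_sub h2 h1
    have e1 : c + (b : 𝓞 F) - (c + (a : 𝓞 F)) = ((b - a : ℕ) : 𝓞 F) := by
      rw [Nat.cast_sub hab.le]
      ring
    rw [e1] at h3
    have hcop : IsCoprime ((b - a : ℕ) : 𝓞 F) (p : 𝓞 F) := by
      refine Nat.Coprime.cast ?_
      rw [Nat.coprime_comm, hp.coprime_iff_not_dvd]
      intro h
      have := Nat.le_of_dvd (by omega) h
      omega
    exact hβ.not_isUnit (hcop.isUnit_of_dvd' h3 hβp)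
  have hcop : ∀ t : ℕ, ¬ π ∣ c + (t : 𝓞 F) → ¬ cj π ∣ c + (t : 𝓞 F) → IsCoprime (c + (t : 𝓞 F)) (p : 𝓞 F) := by
    intro t h1 h2
    rcases dichotomy hp unr hπ hd with ⟨-, -, h3⟩ | ⟨-, -, -, h4⟩
    · exact ((h3.symm.prime hπ).irreducible.coprime_iff_not_dvd.2 fun h => h1 (h3.symm.dvd.trans h)).symm
    · rw [← h4]
      exact IsCoprime.mul_right (hπ.irreducible.coprime_iff_not_dvd.2 h1).symm
        ((cj_prime hπ).irreducible.coprime_iff_not_dvd.2 h2).symm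
  by_contra hcon
  push Not at hcon
  have h0 : ∀ t : ℕ, π ∣ c + (t : 𝓞 F) ∨ cj π ∣ c + (t : 𝓞 F) := by
    intro t
    by_contra h
    push Not at h
    exact hcon t (hcop t h.1 h.2)
  have k1 := key π hπ hd
  have k2 := key (cj π) (cj_prime hπ) hd'
  rcases h0 0 with a0 | a0 <;> rcases h0 1 with a1 | a1 <;> rcases h0 2 with a2 | a2
  · exact k1 0 1 (by norm_num) (by norm_num) a0 a1
  · exact k1 0 1 (by norm_num) (by norm_num) a0 a1
  · exact k1 0 2 (by norm_num) (by norm_num) a0 a2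
  · exact k2 1 2 (by norm_num) (by norm_num) a1 a2
  · exact k1 1 2 (by norm_num) (by norm_num) a1 a2
  · exact k2 0 2 (by norm_num) (by norm_num) a0 a2
  · exact k2 0 1 (by norm_num) (by norm_num) a0 a1
  · exact k2 0 1 (by norm_num) (by norm_num) a0 a1

/-- An integer d, prime to p, of norm 1 modulo p, with d - 1 prime to p. -/
theorem b_d {p : ℕ} (hp : p.Prime) (h5 : 5 ≤ p) (unr : ∀ v : HeightOneSpectrum (𝓞 F), (p : 𝓞 F) ∉ v.asIdeal ^ 2) :
    ∃ d : 𝓞 F, IsCoprime d (p : 𝓞 F) ∧ IsCoprime (d - 1) (p : 𝓞 F) ∧ (p : 𝓞 F) ∣ cj d * d - 1 := by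
  obtain ⟨c₀, hc₀⟩ := b_c (F := F) hp (by omega) unr
  obtain ⟨t, ht⟩ := b_t hp h5 unr c₀
  obtain ⟨c, hc⟩ : ∃ c, c = c₀ + (t : 𝓞 F) := ⟨_, rfl⟩
  rw [← hc] at ht
  have hcc : c - cj c = c₀ - cj c₀ := by
    rw [hc, map_add, cj_nat]
    ring
  rw [← hcc] at hc₀
  obtain ⟨u, w, huw⟩ := ht
  -- u c + w p = 1
  have h1 : cj u * cj c + cj w * (p : 𝓞 F) = 1 := by
    rw [← map_one cj, ← huw, map_add, map_mul, map_mul, cj_nat]
  refine ⟨c * cj u, ?_, ?_, ?_⟩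
  · refine ⟨u * cj c, w + cj w * u * c, ?_⟩
    linear_combination huw + (u * c) * h1
  · obtain ⟨a, b, hab⟩ := hc₀
    refine ⟨a * cj c, b + a * c * cj w, ?_⟩
    linear_combination hab + (a * c) * h1
  · refine ⟨-(w + cj w * u * c), ?_⟩
    rw [map_mul, cj_cj]
    linear_combination huw + (u * c) * h1

end arith

end H55X
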