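import Mathlib
import Pool.Agent.Lib.H55X.B

/-! # H55X: elements of the Galois group with a given action on the points killed by p -/

open NumberField IsDedekindDomain WeierstrassCurve

namespace H55X

open H55P (IQ Pt ac Inert Dec Nm)
open H35P (WAB Ker tt)
open H55K H55K.S

variable {F : Type} [Field F] [NumberField F] [IQ F] {A B : F} {Om : ℂ} {Ω : Type} [Field Ω] [DecidableEq Ω]
  [Algebra F Ω] [IsAlgClosure F Ω] {j : Ω →+* ℂ} {act : 𝓞 F →+* AddMonoid.End (Pt (WAB A B) Ω)} {mo : Ideal (𝓞 F)}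
  {ψ : Ideal (𝓞 F) →*₀ 𝓞 F} {p : ℕ}

theorem c_exp {Ω : Type} [Field Ω] {ζ : Ω} {n a b : ℕ} (hζ : IsPrimitiveRoot ζ n) (hn : n ≠ 0) (h : ζ ^ a = ζ ^ b) :
    (n : ℤ) ∣ (a : ℤ) - b := by
  rw [← hζ.zpow_eq_one_iff_dvd, zpow_sub₀ (hζ.ne_zero hn), zpow_natCast, zpow_natCast, h, div_self (pow_ne_zero _ (hζ.ne_zero hn))]

omit [IsAlgClosure F Ω] in
theorem c_vo {V : ValuationSubring Ω} {π : 𝓞 F} (hV : vo V π < 1) (hd : π ∣ (p : 𝓞 F)) : V.valuation (p : Ω) < 1 := by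
  obtain ⟨x, hx⟩ := hd
  rw [← vo_nat (F := F) V p, hx, vo_mul]
  exact mul_lt_one_of_lt_of_le hV (vo_le V x)

/-- Every integer prime to p is the action, on the points killed by p, of an element of each group which contains the inertia groups above p. -/
theorem c_real (dta : Dta A B Om j act mo ψ p) (H : Subgroup (Ω ≃ₐ[F] Ω))
    (hH : ∀ V : ValuationSubring Ω, V.valuation (p : Ω) < 1 → ∀ s, Inert V s → s ∈ H) {d : 𝓞 F} (hd : IsCoprime d (p : 𝓞 F)) :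
    ∃ s ∈ H, ∀ T : Pt (WAB A B) Ω, p • T = 0 → ac (WAB A B) s T = act d T := by
  have hA := dta.cma
  obtain ⟨π, hπ, hdv⟩ := exists_prime_above (F := F) dta.prime
  have hπ' := cj_prime hπ
  have hdv' : cj π ∣ (p : 𝓞 F) := by
    rw [cj_dvd, cj_nat]
    exact hdv
  have hnd : ∀ β : 𝓞 F, Prime β → β ∣ (p : 𝓞 F) → ¬ β ∣ d := fun β hβ h1 h2 => hβ.not_isUnit (hd.isUnit_of_dvd' h2 h1)
  obtain ⟨V, hV⟩ := exists_vr (Ω := Ω) hπ
  have hVp := c_vo hV hdv
  obtain ⟨s, hs, h1⟩ := inert_act hA (dta.good V hVp) hπ hV (hnd π hπ hdv)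
  have hp0 : ∀ T : Pt (WAB A B) Ω, p • T = 0 → act (p : 𝓞 F) T = 0 := fun T hT => by rw [act_nat (act := act)]; exact hT
  rcases dichotomy dta.prime dta.unr hπ hdv with ⟨-, -, h3⟩ | ⟨h3, h4, -, h5⟩
  · refine ⟨s, hH V hVp s hs, fun T hT => h1 T ?_⟩
    rw [← tor_assoc h3]
    exact hp0 T hT
  · obtain ⟨V', hV'⟩ := exists_vr (Ω := Ω) hπ'
    have hVp' := c_vo hV' hdv'
    obtain ⟨s', hs', h1'⟩ := inert_act hA (dta.good V' hVp') hπ' hV' (hnd _ hπ' hdv')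
    refine ⟨s * s', H.mul_mem (hH V hVp s hs) (hH V' hVp' s' hs'), fun T hT => ?_⟩
    have e1 : ∀ X ∈ Tor act π, ac (WAB A B) (s * s') X = act d X := by
      intro X hX
      rw [H55K.S.ac_mul, inert_triv hA (dta.good V' hVp') (qv_unit V' hπ' hV' h4) hs' hX, h1 X hX]
    have e2 : ∀ X ∈ Tor act (cj π), ac (WAB A B) (s * s') X = act d X := by
      intro X hX
      rw [H55K.S.ac_mul, h1' X hX, ← h1' X hX, inert_triv hA (dta.good V hVp) (qv_unit V hπ hV h3) hs (ac_mem hA s' hX), h1' X hX]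
    obtain ⟨a, b, hab⟩ : IsCoprime π (cj π) := hπ.irreducible.coprime_iff_not_dvd.2 h3
    have e3 : act (a * π) T ∈ Tor act (cj π) := by
      rw [mem_Tor, ← act_mul]
      have e : cj π * (a * π) = a * (p : 𝓞 F) := by rw [← h5]; ring
      rw [e, act_mul, hp0 T hT, map_zero]
    have e4 : act (b * cj π) T ∈ Tor act π := by
      rw [mem_Tor, ← act_mul]
      have e : π * (b * cj π) = b * (p : 𝓞 F) := by rw [← h5]; ring
      rw [e, act_mul, hp0 T hT, map_zero]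
    have e5 : T = act (a * π) T + act (b * cj π) T := by
      rw [← act_add, hab, act_one]
    have e6 := e2 _ e3
    have e7 := e1 _ e4
    calc ac (WAB A B) (s * s') T = ac (WAB A B) (s * s') (act (a * π) T + act (b * cj π) T) := by rw [← e5]
      _ = act d (act (a * π) T) + act d (act (b * cj π) T) := by rw [map_add, e6, e7]
      _ = act d (act (a * π) T + act (b * cj π) T) := (map_add _ _ _).symm
      _ = act d T := by rw [← e5]

/-- The action on the roots of unity. -/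
theorem c_zeta (dta : Dta A B Om j act mo ψ p) {d : 𝓞 F} {s : Ω ≃ₐ[F] Ω}
    (hs : ∀ T : Pt (WAB A B) Ω, p • T = 0 → ac (WAB A B) s T = act d T) {ζ : Ω} (hζ : IsPrimitiveRoot ζ p) :
    ∃ c : ℕ, s ζ = ζ ^ c ∧ ∃ π : 𝓞 F, Prime π ∧ π ∣ (p : 𝓞 F) ∧ π ∣ cj d * d - (c : 𝓞 F) := by
  have hA := dta.cma
  have hp0 : NeZero p := ⟨dta.prime.ne_zero⟩
  obtain ⟨π, hπ, hdv⟩ := exists_prime_above (F := F) dta.prime
  have hdv' : cj π ∣ (p : 𝓞 F) := by
    rw [cj_dvd, cj_nat]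
    exact hdv
  have h1 : (s ζ) ^ p = 1 := by rw [← map_pow, hζ.pow_eq_one, map_one]
  obtain ⟨c, -, hc⟩ := hζ.eq_pow_of_pow_eq_one h1
  have key : ∀ β : 𝓞 F, Prime β → β ∣ (p : 𝓞 F) → ∃ T₀ ∈ Tor act β, T₀ ≠ 0 ∧ ac (WAB A B) s T₀ = act d T₀ := by
    rintro β hβ ⟨x, hx⟩
    obtain ⟨-, T₀, hT₀, -, hz⟩ := gi_gen hA β hβ
    refine ⟨T₀, hT₀, ?_, hs T₀ ?_⟩
    · intro h
      exact hβ.not_isUnit (isUnit_of_dvd_one ((hz 1).1 (by rw [h, map_zero])))
    · rw [← act_nat (act := act), hx, mul_comm, act_mul, mem_Tor.1 hT₀, map_zero]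
  obtain ⟨T₀, a1, a2, a3⟩ := key π hπ hdv
  obtain ⟨T₀', b1, b2, b3⟩ := key _ (cj_prime hπ) hdv'
  exact ⟨c, hc.symm, π, hπ, hdv, char_id π p dta hπ hdv ζ hζ s d d c T₀ T₀' a1 a2 b1 b2 a3 b3 hc.symm⟩

omit [IQ F] in
/-- Integers divisible by a prime element above p are divisible by p. -/
theorem c_int (hp : p.Prime) {π : 𝓞 F} (hπ : Prime π) (hd : π ∣ (p : 𝓞 F)) {n : ℤ} (hn : π ∣ (n : 𝓞 F)) : (p : ℤ) ∣ n := by
  by_contra h
  have h1 : IsCoprime (p : ℤ) n := (Nat.prime_iff_prime_int.1 hp).irreducible.coprime_iff_not_dvd.2 h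
  obtain ⟨a, b, hab⟩ := h1
  have h2 : (a : 𝓞 F) * (p : 𝓞 F) + b * n = 1 := by exact_mod_cast congrArg (fun z : ℤ => (z : 𝓞 F)) hab
  have h3 : IsCoprime (p : 𝓞 F) (n : 𝓞 F) := ⟨a, b, h2⟩
  exact hπ.not_isUnit (h3.isUnit_of_dvd' hd hn)

/-- An element which fixes the roots of unity of order p^k but no point of order p. -/
theorem c_tau [CharZero Ω] (dta : Dta A B Om j act mo ψ p) (H : Subgroup (Ω ≃ₐ[F] Ω))
    (hH : ∀ V : ValuationSubring Ω, V.valuation (p : Ω) < 1 → ∀ s, Inert V s → s ∈ H) (k : ℕ) :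
    ∃ τ ∈ H, (∀ ζ : Ω, ζ ^ p ^ (k + 1) = 1 → τ ζ = ζ) ∧ ∀ T : Pt (WAB A B) Ω, p • T = 0 → ac (WAB A B) τ T = T → T = 0 := by
  have hac : IsAlgClosed Ω := IsAlgClosure.isAlgClosed F
  have hp := dta.prime
  have hF : Fact p.Prime := ⟨hp⟩
  have hp0 : NeZero (p ^ (k + 1)) := ⟨pow_ne_zero _ hp.ne_zero⟩
  obtain ⟨d, h1, h2, h3⟩ := b_d (F := F) hp dta.five dta.unr
  obtain ⟨s, hs, hsd⟩ := c_real dta H hH h1
  obtain ⟨ζ, hζ⟩ := HasEnoughRootsOfUnity.exists_primitiveRoot Ω (p ^ (k + 1))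
  have hζp : IsPrimitiveRoot (ζ ^ p ^ k) p := hζ.pow (pow_pos hp.pos _) (pow_succ p k)
  obtain ⟨c, hc, π, hπ, hπp, hπc⟩ := c_zeta dta hsd hζp
  have h4 : (s ζ) ^ p ^ (k + 1) = 1 := by rw [← map_pow, hζ.pow_eq_one, map_one]
  obtain ⟨a, -, ha⟩ := hζ.eq_pow_of_pow_eq_one h4
  have hca : (p : ℤ) ∣ (a : ℤ) - 1 := by
    have e1 : (ζ ^ p ^ k) ^ a = (ζ ^ p ^ k) ^ c := by
      rw [← hc, map_pow, ← ha, ← pow_mul, ← pow_mul, mul_comm]
    have e3 : (p : ℤ) ∣ (a : ℤ) - c := c_exp hζp hp.ne_zero e1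
    have e4 : (p : ℤ) ∣ (c : ℤ) - 1 := by
      refine c_int hp hπ hπp ?_
      have e5 := dvd_sub (hπp.trans h3) hπc
      have e6 : cj d * d - 1 - (cj d * d - (c : 𝓞 F)) = (((c : ℤ) - 1 : ℤ) : 𝓞 F) := by
        push_cast
        ring
      rwa [e6] at e5
    have e7 := dvd_add e3 e4
    rwa [sub_add_sub_cancel] at e7
  have hpow : ∀ (n : ℕ) (x : Ω), x ^ p ^ (k + 1) = 1 → (s ^ n) x = x ^ a ^ n := by
    intro n
    induction n with
    | zero => intro x _; rw [pow_zero, pow_zero, pow_one]; rfl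
    | succ n ih =>
      intro x hx
      obtain ⟨i, -, hi⟩ := hζ.eq_pow_of_pow_eq_one hx
      have e1 : s x = x ^ a := by rw [← hi, map_pow, ← ha, ← pow_mul, ← pow_mul, mul_comm]
      rw [pow_succ]
      show (s ^ n) (s x) = _
      rw [e1, map_pow, ih x hx, ← pow_mul, pow_succ]
  have hact : ∀ (n : ℕ) (T : Pt (WAB A B) Ω), p • T = 0 → ac (WAB A B) (s ^ n) T = act (d ^ n) T := by
    intro n
    induction n with
    | zero => intro T _; rw [pow_zero, pow_zero, act_one, H55K.S.ac_one]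
    | succ n ih =>
      intro T hT
      rw [pow_succ, pow_succ, H55K.S.ac_mul, hsd T hT, ac_act dta.cma, ih T hT, ← act_mul, mul_comm]
  refine ⟨s ^ p ^ k, H.pow_mem hs _, fun x hx => ?_, fun T hT hf => ?_⟩
  · rw [hpow _ x hx]
    have e1 : ((p ^ (k + 1) : ℕ) : ℤ) ∣ (a : ℤ) ^ p ^ k - 1 := by
      have := dvd_sub_pow_of_dvd_sub hca k
      rw [one_pow] at this
      exact_mod_cast this
    have e2 : a ^ p ^ k ≡ 1 [MOD p ^ (k + 1)] := by
      refine (Nat.modEq_iff_dvd.2 ?_).symm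
      exact_mod_cast e1
    conv_rhs => rw [← pow_one x]
    exact pow_eq_pow_of_modEq e2 hx
  · rw [hact _ T hT] at hf
    -- the ideal of the integers which kill T
    have e1 : (p : 𝓞 F) ∣ (d - 1) ^ p ^ k - (d ^ p ^ k - 1) := by
      have hnt : Nontrivial (𝓞 F ⧸ Ideal.span {(p : 𝓞 F)}) := by
        refine Ideal.Quotient.nontrivial_iff.2 fun h => ?_
        rw [Ideal.span_singleton_eq_top] at h
        exact hπ.not_isUnit (isUnit_of_dvd_unit hπp h)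
      have hch : CharP (𝓞 F ⧸ Ideal.span {(p : 𝓞 F)}) p := by
        refine (CharP.charP_iff_prime_eq_zero hp).2 ?_
        have := (Ideal.Quotient.eq_zero_iff_mem (I := Ideal.span {(p : 𝓞 F)})).2 (Ideal.mem_span_singleton_self (p : 𝓞 F))
        rwa [map_natCast] at this
      rw [← Ideal.mem_span_singleton, ← Ideal.Quotient.eq_zero_iff_mem, map_sub, map_pow, map_sub, map_sub, map_pow, map_one,
        sub_pow_char_pow, one_pow, sub_self]
    have e2 : act ((d - 1) ^ p ^ k) T = 0 := by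
      obtain ⟨x, hx⟩ := e1
      have e3 : (d - 1) ^ p ^ k = d ^ p ^ k - 1 + x * (p : 𝓞 F) := by linear_combination hx
      rw [e3, act_add, act_sub, act_one, hf, sub_self, zero_add, act_mul, act_nat (act := act) (n := p), hT, map_zero]
    obtain ⟨u, w, huw⟩ : IsCoprime ((d - 1) ^ p ^ k) (p : 𝓞 F) := h2.pow_left
    have e4 : act (u * (d - 1) ^ p ^ k + w * (p : 𝓞 F)) T = 0 := by
      rw [act_add, act_mul, e2, act_mul, act_nat (act := act) (n := p), hT, map_zero, map_zero, add_zero]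
    rwa [huw, act_one] at e4

/-- An element which acts as multiplication by 2 on the points of order p, and fixes no root of unity of order p. -/
theorem c_two [CharZero Ω] (dta : Dta A B Om j act mo ψ p) (H : Subgroup (Ω ≃ₐ[F] Ω))
    (hH : ∀ V : ValuationSubring Ω, V.valuation (p : Ω) < 1 → ∀ s, Inert V s → s ∈ H) :
    ∃ s ∈ H, (∀ T : Pt (WAB A B) Ω, p • T = 0 → ac (WAB A B) s T = act (2 : 𝓞 F) T) ∧ ∀ ζ : Ω, ζ ^ p = 1 → s ζ = ζ → ζ = 1 := by
  have hac : IsAlgClosed Ω := IsAlgClosure.isAlgClosed F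
  have hp := dta.prime
  have hF : Fact p.Prime := ⟨hp⟩
  have h5 := dta.five
  have h2 : IsCoprime (2 : 𝓞 F) (p : 𝓞 F) := by
    have : Nat.Coprime 2 p := (Nat.coprime_primes Nat.prime_two hp).2 (by omega)
    exact_mod_cast this.cast (R := 𝓞 F)
  obtain ⟨s, hs, hsd⟩ := c_real dta H hH h2
  refine ⟨s, hs, hsd, fun ζ hζ hf => ?_⟩
  by_contra hζ1
  have hprim : IsPrimitiveRoot ζ p := by
    have h1 := orderOf_eq_prime hζ hζ1
    rw [← h1]
    exact IsPrimitiveRoot.orderOf ζ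
  obtain ⟨c, hc, π, hπ, hπp, hπc⟩ := c_zeta dta hsd hprim
  have e1 : (p : ℤ) ∣ (c : ℤ) - 1 := by
    have e2 : ζ ^ c = ζ ^ 1 := by rw [← hc, hf, pow_one]
    have e3 := c_exp hprim hp.ne_zero e2
    rwa [Nat.cast_one] at e3
  have e2 : (p : ℤ) ∣ 4 - (c : ℤ) := by
    refine c_int hp hπ hπp ?_
    have e3 : cj (2 : 𝓞 F) * 2 - (c : 𝓞 F) = ((4 - (c : ℤ) : ℤ) : 𝓞 F) := by
      rw [map_ofNat]
      push_cast
      ring
    rwa [e3] at hπc
  have e3 := dvd_add e1 e2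
  have e4 : (p : ℤ) ∣ 3 := by
    have e5 : (c : ℤ) - 1 + (4 - (c : ℤ)) = 3 := by ring
    rwa [e5] at e3
  have e5 := Int.le_of_dvd (by norm_num) e4
  omega

end H55X
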