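import Mathlib
import Pool.Agent.Lib.H55X.C

/-! # H55X: an element of the Galois group which moves a p-th root and fixes the roots of unity and the points killed by p -/

open NumberField IsDedekindDomain WeierstrassCurve

namespace H55X

open H55P (IQ Pt ac Inert Dec Nm)
open H35P (WAB Ker tt)
open H55K H55K.S

/-- A group element σ which fixes only the trivial root of unity of order p fixes one of the p-th roots of each element which it fixes. -/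
theorem k_root {F Ω : Type} [Field F] [Field Ω] [Algebra F Ω] {p : ℕ} (hp : p ≠ 0) {s : Ω ≃ₐ[F] Ω}
    (hs : ∀ ζ : Ω, ζ ^ p = 1 → s ζ = ζ → ζ = 1) {z : Ω} (hz : s (z ^ p) = z ^ p) : ∃ x : Ω, x ^ p = z ^ p ∧ s x = x := by
  have : NeZero p := ⟨hp⟩
  by_cases hz0 : z = 0
  · exact ⟨0, by rw [hz0], map_zero s⟩
  have hfin : Finite (rootsOfUnity p Ω) := inferInstance
  let f : rootsOfUnity p Ω →* rootsOfUnity p Ω :=
    { toFun := fun ζ => restrictRootsOfUnity s p ζ / ζ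
      map_one' := by rw [map_one, div_one]
      map_mul' := fun a b => by rw [map_mul, mul_div_mul_comm] }
  have hf : ∀ ζ : rootsOfUnity p Ω, f ζ = restrictRootsOfUnity s p ζ / ζ := fun _ => rfl
  have hinj : Function.Injective f := by
    rw [injective_iff_map_eq_one]
    intro ζ h
    rw [hf, div_eq_one] at h
    have h1 : s ((ζ : Ωˣ) : Ω) = ((ζ : Ωˣ) : Ω) := by
      have h2 := congrArg (fun t : rootsOfUnity p Ω => ((t : Ωˣ) : Ω)) h
      exact h2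
    have h2 : ((ζ : Ωˣ) : Ω) ^ p = 1 := by
      have h3 := (mem_rootsOfUnity p (ζ : Ωˣ)).1 ζ.2
      rw [← Units.val_pow_eq_pow_val, h3, Units.val_one]
    have h3 := hs _ h2 h1
    exact Subtype.ext (Units.ext h3)
  have hsurj := Finite.injective_iff_surjective.1 hinj
  -- η = s z / z
  have hη : (s z / z) ^ p = 1 := by
    rw [div_pow, ← map_pow, hz, div_self (pow_ne_zero p hz0)]
  have hη0 : s z / z ≠ 0 := div_ne_zero ((map_ne_zero s).2 hz0) hz0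
  obtain ⟨ξ, hξ⟩ := hsurj ⟨(Units.mk0 _ hη0)⁻¹, by
    rw [mem_rootsOfUnity]
    apply Units.ext
    rw [Units.val_pow_eq_pow_val, Units.val_inv_eq_inv_val, Units.val_mk0, Units.val_one, inv_pow, hη, inv_one]⟩
  have h1 : s ((ξ : Ωˣ) : Ω) / ((ξ : Ωˣ) : Ω) = (s z / z)⁻¹ := by
    have h2 := congrArg (fun t : rootsOfUnity p Ω => ((t : Ωˣ) : Ω)) hξ
    have h3 : (((f ξ : rootsOfUnity p Ω) : Ωˣ) : Ω) = s ((ξ : Ωˣ) : Ω) / ((ξ : Ωˣ) : Ω) := by
      rw [hf]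
      push_cast
      rfl
    rw [← h3]
    refine h2.trans ?_
    show (((Units.mk0 _ hη0)⁻¹ : Ωˣ) : Ω) = _
    rw [Units.val_inv_eq_inv_val, Units.val_mk0]
  have hξ0 : ((ξ : Ωˣ) : Ω) ≠ 0 := (ξ : Ωˣ).ne_zero
  have hξp : ((ξ : Ωˣ) : Ω) ^ p = 1 := by
    have h3 := (mem_rootsOfUnity p (ξ : Ωˣ)).1 ξ.2
    rw [← Units.val_pow_eq_pow_val, h3, Units.val_one]
  refine ⟨((ξ : Ωˣ) : Ω) * z, by rw [mul_pow, hξp, one_mul], ?_⟩
  have hsz : s z ≠ 0 := (map_ne_zero s).2 hz0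
  rw [map_mul]
  rw [inv_div, div_eq_div_iff hξ0 hsz] at h1
  rw [h1, mul_comm]

variable {F : Type} [Field F] [NumberField F] [IQ F] {A B : F} {Om : ℂ} {Ω : Type} [Field Ω] [DecidableEq Ω]
  [Algebra F Ω] [IsAlgClosure F Ω] {j : Ω →+* ℂ} {act : 𝓞 F →+* AddMonoid.End (Pt (WAB A B) Ω)} {mo : Ideal (𝓞 F)}
  {ψ : Ideal (𝓞 F) →*₀ 𝓞 F} {p : ℕ}

/-- An element which moves z and fixes the roots of unity of order p^(k+1) and the points killed by p, if no p-th root of z^p is fixed by H. -/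
theorem k_rho [CharZero Ω] (dta : Dta A B Om j act mo ψ p) (H : Subgroup (Ω ≃ₐ[F] Ω))
    (hH : ∀ V : ValuationSubring Ω, V.valuation (p : Ω) < 1 → ∀ s, Inert V s → s ∈ H) (k : ℕ) {z : Ω}
    (hz : ∀ s ∈ H, s (z ^ p) = z ^ p) (hne : ¬ ∃ x : Ω, x ^ p = z ^ p ∧ ∀ s ∈ H, s x = x) :
    ∃ ρ ∈ H, (∀ ζ : Ω, ζ ^ p ^ (k + 1) = 1 → ρ ζ = ζ) ∧ (∀ T : Pt (WAB A B) Ω, p • T = 0 → ac (WAB A B) ρ T = T) ∧ ρ z ≠ z := by
  have hac : IsAlgClosed Ω := IsAlgClosure.isAlgClosed F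
  have hp := dta.prime
  have hp0 : NeZero (p ^ (k + 1)) := ⟨pow_ne_zero _ hp.ne_zero⟩
  by_contra hcon
  push Not at hcon
  obtain ⟨s₀, hs₀, h1, h2⟩ := c_two dta H hH
  obtain ⟨x, hx, hsx⟩ := k_root hp.ne_zero h2 (hz s₀ hs₀)
  have hroot : ∀ ρ ∈ H, (∀ ζ : Ω, ζ ^ p ^ (k + 1) = 1 → ρ ζ = ζ) → (∀ T : Pt (WAB A B) Ω, p • T = 0 → ac (WAB A B) ρ T = T) → ρ x = x := by
    intro ρ hρ hρ1 hρ2
    have h3 := hcon ρ hρ hρ1 hρ2
    by_cases hz0 : z = 0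
    · rw [hz0, zero_pow hp.ne_zero] at hx
      rw [eq_zero_of_pow_eq_zero hx, map_zero]
    · have h4 : (x / z) ^ p ^ (k + 1) = 1 := by
        rw [pow_succ', pow_mul, div_pow, hx, div_self (pow_ne_zero p hz0), one_pow]
      have h5 := hρ1 _ h4
      rw [map_div₀, h3, div_left_inj' hz0] at h5
      exact h5
  refine hne ⟨x, hx, fun t ht => ?_⟩
  obtain ⟨ζ, hζ⟩ := HasEnoughRootsOfUnity.exists_primitiveRoot Ω (p ^ (k + 1))
  have h4 : (s₀ ζ) ^ p ^ (k + 1) = 1 := by rw [← map_pow, hζ.pow_eq_one, map_one]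
  obtain ⟨a, -, ha⟩ := hζ.eq_pow_of_pow_eq_one h4
  have hs0 : ∀ y : Ω, y ^ p ^ (k + 1) = 1 → s₀ y = y ^ a := by
    intro y hy
    obtain ⟨i, -, hi⟩ := hζ.eq_pow_of_pow_eq_one hy
    rw [← hi, map_pow, ← ha, ← pow_mul, ← pow_mul, mul_comm]
  have hcomm : s₀ (t x) = t x := by
    have h5 : (t⁻¹ * s₀⁻¹ * t * s₀) x = x := by
      refine hroot _ (H.mul_mem (H.mul_mem (H.mul_mem (H.inv_mem ht) (H.inv_mem hs₀)) ht) hs₀) ?_ ?_
      · intro y hy
        have h6 : (t y) ^ p ^ (k + 1) = 1 := by rw [← map_pow, hy, map_one]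
        have h7 : t (s₀ y) = s₀ (t y) := by rw [hs0 y hy, hs0 _ h6, map_pow]
        show t⁻¹ (s₀⁻¹ (t (s₀ y))) = y
        rw [h7]
        have h8 : s₀⁻¹ (s₀ (t y)) = t y := s₀.symm_apply_apply _
        rw [h8]
        exact t.symm_apply_apply _
      · intro T hT
        have h6 : p • ac (WAB A B) t T = 0 := by rw [← map_nsmul, hT, map_zero]
        rw [H55K.S.ac_mul, H55K.S.ac_mul, H55K.S.ac_mul, h1 T hT, ac_act dta.cma, ← h1 _ h6, ← H55K.S.ac_mul s₀⁻¹, inv_mul_cancel, H55K.S.ac_one,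
          ← H55K.S.ac_mul, inv_mul_cancel, H55K.S.ac_one]
    have h6 : t⁻¹ (s₀⁻¹ (t (s₀ x))) = x := h5
    rw [hsx] at h6
    have h7 : s₀⁻¹ (t x) = t x := by
      have h8 := congrArg t h6
      have h9 : t (t⁻¹ (s₀⁻¹ (t x))) = s₀⁻¹ (t x) := t.apply_symm_apply _
      rwa [h9] at h8
    have h8 : s₀ (s₀⁻¹ (t x)) = t x := s₀.apply_symm_apply _
    rwa [h7] at h8
  by_cases hx0 : x = 0
  · rw [hx0, map_zero]
  have h5 : (t x / x) ^ p = 1 := by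
    rw [div_pow, ← map_pow, hx, hz t ht, ← hx, div_self (pow_ne_zero p hx0)]
  have h6 := h2 _ h5 (by rw [map_div₀, hcomm, hsx])
  exact (div_eq_one_iff_eq hx0).1 h6

end H55X
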