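import Mathlib
import Pool.Agent.Lib.H55X.K
import Pool.Agent.Lib.H55X.E
import Pool.Agent.Lib.H35AX.D
import Pool.Agent.Lib.H13V.C6

/-! # H55X: the separation of the p-th powers by non-anomalous primes q with N(q) = 1 modulo p^k -/

open NumberField IsDedekindDomain WeierstrassCurve

namespace H55X

open H55P (IQ Pt ac Inert Dec Nm UnrP)
open H35P (WAB Ker tt)
open H55K H55K.S H55K.TQ
open H13S (Abv)
open H13X (DecN)

section curve

variable {F : Type} [Field F] [NumberField F] [IQ F] {A B : F} {Om : ℂ} {Ω : Type} [Field Ω] [DecidableEq Ω]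
  [Algebra F Ω] {j : Ω →+* ℂ} {act : 𝓞 F →+* AddMonoid.End (Pt (WAB A B) Ω)} {V : ValuationSubring Ω} {p : ℕ}

/-- The short equation is good outside 6 times the discriminant. -/
theorem r_gv (W₀ : WeierstrassCurve (𝓞 F)) (hA : A = -(algebraMap (𝓞 F) F W₀.c₄) / 48) (hB : B = -(algebraMap (𝓞 F) F W₀.c₆) / 864)
    (h2 : V.valuation (2 : Ω) = 1) (h3 : V.valuation (3 : Ω) = 1) (hΔ : vo V W₀.Δ = 1) : GV A B V := by
  have h48 : V.valuation (48 : Ω) = 1 := by
    rw [show (48 : Ω) = 2 ^ 4 * 3 by norm_num, map_mul, map_pow, h2, h3, one_pow, one_mul]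
  have h864 : V.valuation (864 : Ω) = 1 := by
    rw [show (864 : Ω) = 2 ^ 5 * 3 ^ 3 by norm_num, map_mul, map_pow, map_pow, h2, h3, one_pow, one_pow, one_mul]
  have h16 : V.valuation (16 : Ω) = 1 := by
    rw [show (16 : Ω) = 2 ^ 4 by norm_num, map_pow, h2, one_pow]
  have hcz : CharZero F := inferInstance
  have e4 : algebraMap F Ω A = -(ak Ω W₀.c₄) / 48 := by
    rw [hA, map_div₀, map_neg, map_ofNat]
  have e6 : algebraMap F Ω B = -(ak Ω W₀.c₆) / 864 := by
    rw [hB, map_div₀, map_neg, map_ofNat]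
  have ed : algebraMap F Ω (4 * A ^ 3 + 27 * B ^ 2) = -(ak Ω W₀.Δ) / 16 := by
    have h := congrArg (algebraMap (𝓞 F) F) W₀.c_relation
    have e1 : 4 * A ^ 3 + 27 * B ^ 2 = -(algebraMap (𝓞 F) F W₀.Δ) / 16 := by
      rw [map_mul, map_sub, map_pow, map_pow, map_ofNat] at h
      rw [hA, hB]
      linear_combination (1 / 27648 : F) * h
    rw [e1, map_div₀, map_neg, map_ofNat]
  refine ⟨?_, ?_, h2, h3, ?_⟩
  · rw [← V.valuation_le_one_iff, e4, map_div₀, Valuation.map_neg, h48, div_one]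
    exact ak_le V _
  · rw [← V.valuation_le_one_iff, e6, map_div₀, Valuation.map_neg, h864, div_one]
    exact ak_le V _
  · rw [ed, map_div₀, Valuation.map_neg, h16, div_one]
    exact hΔ

/-- Two elements with the same Frobenius congruence have the same action on the points of order p. -/
theorem r_act (hA : CMA F A B Om j act) (hG : GV A B V) (hV : V.valuation (p : Ω) = 1) (σ s : Ω ≃ₐ[F] Ω) (Q : ℕ)
    (hs : ∀ x ∈ V, V.valuation (s x - x ^ Q) < 1) {T : Pt (WAB A B) Ω} (hT : p • T = 0)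
    (hx : xc T ∈ V → V.valuation (σ (xc T) - xc T ^ Q) < 1) (hy : yc T ∈ V → V.valuation (σ (yc T) - yc T ^ Q) < 1) :
    ac (WAB A B) σ T = ac (WAB A B) s T := by
  have hT' : T ∈ Tor act (p : 𝓞 F) := by
    rw [mem_Tor, act_nat (act := act)]
    exact hT
  have hvp : vo V (p : 𝓞 F) = 1 := by rw [vo_nat, hV]
  have hsub : ac (WAB A B) σ T - ac (WAB A B) s T ∈ Tor act (p : 𝓞 F) := (Tor act _).sub_mem (ac_mem hA σ hT') (ac_mem hA s hT')
  refine sub_eq_zero.1 (kr_tor hA hG _ hvp hsub ?_)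
  by_cases hK : Ker V T
  · rw [kr_tor hA hG _ hvp hT' hK, map_zero, map_zero, sub_zero]
    exact H55K.S.ker_zero V
  · cases T with
    | zero => exact absurd trivial hK
    | some x y h =>
      have hx1 : V.valuation x ≤ 1 := not_lt.1 hK
      have hy1 : V.valuation y ≤ 1 := H35P.int_y (gv_good hG).toIntW h.1 hx1
      have hx2 : x ∈ V := (V.valuation_le_one_iff _).1 hx1
      have hy2 : y ∈ V := (V.valuation_le_one_iff _).1 hy1
      have a1 := hx hx2
      have a2 := hy hy2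
      have a3 := hs x hx2
      have a4 := hs y hy2
      have hmem : ∀ {t u : Ω}, u ∈ V → V.valuation (t - u ^ Q) < 1 → t ∈ V := by
        intro t u hu h1
        have h2 := V.add_mem _ _ ((V.valuation_le_one_iff _).1 h1.le) (pow_mem hu Q)
        rwa [sub_add_cancel] at h2
      have hd : ∀ {t t' u : Ω}, V.valuation (t - u ^ Q) < 1 → V.valuation (t' - u ^ Q) < 1 → V.valuation (t - t') < 1 := by
        intro t t' u h1 h2
        have h3 := V.valuation.map_sub_lt h1 h2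
        rwa [sub_sub_sub_cancel_right] at h3
      exact H35P.rd (gv_good hG) _ _ ⟨σ x, σ y, _, s x, s y, _, rfl, rfl, hmem hx2 a1, hmem hy2 a2, hmem hx2 a3, hmem hy2 a4,
        hd a1 a3, hd a2 a4⟩

end curve

open scoped Classical in
/-- SEPARATION OF THE p-TH POWERS by primes q with N(q) = 1 modulo p^k at which p does not divide the number of points. -/
theorem sep {F : Type} [Field F] [NumberField F] [IQ F] {W₀ : WeierstrassCurve (𝓞 F)} {Om : ℂ} {m : Ideal (𝓞 F)}
    {ψ : Ideal (𝓞 F) →*₀ 𝓞 F} {p : ℕ} (hH : BaseH F W₀ Om m ψ) (hp : PrimeH F W₀ p)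
    (L : IntermediateField F (AlgebraicClosure F)) [NumberField L] (hU : UnrP p L) (k : ℕ) :
    H35AX.Sep (L := L) p k (fun w => algebraMap (𝓞 F) (𝓞 L) W₀.Δ ∉ w.asIdeal ∧
      ¬ p ∣ Nat.card (W₀⁄(𝓞 L ⧸ w.asIdeal)).toAffine.Point) := by
  intro S hS y hy0 hy
  obtain ⟨A, B, j, act, hA, hB, dta⟩ := H13T.exists_dta hH hp
  have hcma := dta.cma
  have hpp := hp.prime
  have hac : IsAlgClosed (AlgebraicClosure F) := inferInstance
  have hchar : CharZero (AlgebraicClosure F) := charZero_of_injective_algebraMap (algebraMap F (AlgebraicClosure F)).injective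
  have hNb := H13R.nb_ofR hpp hp.unr hU
  obtain ⟨z, hz⟩ := IsAlgClosed.exists_pow_nat_eq ((y : L) : AlgebraicClosure F) hpp.pos
  -- the elements of the Galois group
  obtain ⟨τ, hτ, hτ1, hτ2⟩ := c_tau dta L.fixingSubgroup hNb.inert k
  obtain ⟨ρ, hρ, hρ1, hρ2, hρ3⟩ := k_rho dta L.fixingSubgroup hNb.inert k (z := z) (fun s hs => by
      rw [hz]
      exact (IntermediateField.mem_fixingSubgroup_iff L s).1 hs _ (y : L).2) (by
      rintro ⟨x, hx, hxs⟩
      have hxL : x ∈ L := ku2_mem L hxs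
      have hint : IsIntegral ℤ (⟨x, hxL⟩ : L) := by
        have h1 : (⟨x, hxL⟩ : L) ^ p = (y : L) := by
          apply Subtype.ext
          show x ^ p = _
          rw [hx, hz]
        refine IsIntegral.of_pow hpp.pos ?_
        rw [h1]
        exact y.isIntegral_coe
      refine hy ⟨⟨⟨x, hxL⟩, hint⟩, ?_⟩
      apply RingOfIntegers.ext
      apply Subtype.ext
      show x ^ p = _
      rw [hx, hz])
  obtain ⟨σ, hσ, hσ1, hσ2, hσ3⟩ : ∃ σ ∈ L.fixingSubgroup, (∀ ζ : AlgebraicClosure F, ζ ^ p ^ (k + 1) = 1 → σ ζ = ζ) ∧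
      (∀ T : Pt (WAB A B) (AlgebraicClosure F), p • T = 0 → ac (WAB A B) σ T = T → T = 0) ∧ σ z ≠ z := by
    by_cases h : τ z = z
    · refine ⟨τ * ρ, L.fixingSubgroup.mul_mem hτ hρ, fun ζ hζ => ?_, fun T hT hf => ?_, fun hf => ?_⟩
      · show τ (ρ ζ) = ζ
        rw [hρ1 ζ hζ, hτ1 ζ hζ]
      · rw [H55K.S.ac_mul, hρ2 T hT] at hf
        exact hτ2 T hT hf
      · have h1 : τ (ρ z) = z := hf
        exact hρ3 (τ.injective (h1.trans h.symm))
    · exact ⟨τ, hτ, hτ1, hτ2, h⟩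
  -- the finite set
  have hp0 : NeZero (p ^ (k + 1)) := ⟨pow_ne_zero _ hpp.ne_zero⟩
  obtain ⟨ζ, hζ⟩ := HasEnoughRootsOfUnity.exists_primitiveRoot (AlgebraicClosure F) (p ^ (k + 1))
  obtain ⟨ST, hST, -⟩ := exists_TN hcma (b := (p : 𝓞 F)) (Nat.cast_ne_zero.2 hpp.ne_zero)
  have hΔ0 : W₀.Δ ≠ 0 := hH.data.ell
  obtain ⟨e, he⟩ : ∃ e : 𝓞 L, e = y * algebraMap (𝓞 F) (𝓞 L) W₀.Δ * (6 : ℕ) * (p : ℕ) := ⟨_, rfl⟩
  have hinj : Function.Injective (algebraMap (𝓞 F) (𝓞 L)) := RingOfIntegers.algebraMap.injective F L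
  have he0 : e ≠ 0 := by
    rw [he]
    refine mul_ne_zero (mul_ne_zero (mul_ne_zero hy0 ?_) (Nat.cast_ne_zero.2 (by norm_num))) (Nat.cast_ne_zero.2 hpp.ne_zero)
    exact fun h => hΔ0 (hinj (h.trans (map_zero _).symm))
  have hfin : {q : HeightOneSpectrum (𝓞 L) | e ∈ q.asIdeal}.Finite := by
    refine (Ideal.finite_factors (I := Ideal.span {e}) (fun h => he0 (Ideal.span_singleton_eq_bot.1 h))).subset fun q hq => ?_
    exact Ideal.dvd_iff_le.2 ((Ideal.span_singleton_le_iff_mem _).2 hq)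
  obtain ⟨q, V, hqS, hV, hX⟩ := e_cheb L σ hσ (insert z (insert ζ (ST.image xc ∪ ST.image yc))) (S ∪ {q | e ∈ q.asIdeal}) (hS.union hfin)
  rw [Set.mem_union, not_or] at hqS
  obtain ⟨hqS, heq⟩ := hqS
  have heq' : e ∉ q.asIdeal := heq
  have hyq : y ∉ q.asIdeal := fun h => heq' (by
    rw [he]
    exact Ideal.mul_mem_right _ _ (Ideal.mul_mem_right _ _ (Ideal.mul_mem_right _ _ h)))
  have hΔq : algebraMap (𝓞 F) (𝓞 L) W₀.Δ ∉ q.asIdeal := fun h => heq' (by
    rw [he]
    exact Ideal.mul_mem_right _ _ (Ideal.mul_mem_right _ _ (Ideal.mul_mem_left _ _ h)))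
  have h6q : ((6 : ℕ) : 𝓞 L) ∉ q.asIdeal := fun h => heq' (by
    rw [he]
    exact Ideal.mul_mem_right _ _ (Ideal.mul_mem_left _ _ h))
  have hpq : ((p : ℕ) : 𝓞 L) ∉ q.asIdeal := fun h => heq' (by
    rw [he]
    exact Ideal.mul_mem_left _ _ h)
  have hone : ∀ n : ℕ, ((n : ℕ) : 𝓞 L) ∉ q.asIdeal → V.valuation ((n : ℕ) : AlgebraicClosure F) = 1 := by
    intro n hn
    refine le_antisymm ((V.valuation_le_one_iff _).2 (natCast_mem V n)) (not_lt.1 fun h => hn ((H13T.ce_val hV n).2 h))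
  have hVp := hone p hpq
  have hV2 : V.valuation (2 : AlgebraicClosure F) = 1 := by
    have h := hone 2 (fun h => h6q (by
      have e1 : ((6 : ℕ) : 𝓞 L) = (2 : ℕ) * (3 : ℕ) := by norm_num
      rw [e1]
      exact Ideal.mul_mem_right _ _ h))
    exact_mod_cast h
  have hV3 : V.valuation (3 : AlgebraicClosure F) = 1 := by
    have h := hone 3 (fun h => h6q (by
      have e1 : ((6 : ℕ) : 𝓞 L) = (2 : ℕ) * (3 : ℕ) := by norm_num
      rw [e1]
      exact Ideal.mul_mem_left _ _ h))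
    exact_mod_cast h
  have hval : ∀ a : 𝓞 L, V.valuation ((a : L) : AlgebraicClosure F) < 1 ↔ a ∈ q.asIdeal := fun a => by
    rw [H13S.Abv.lt hV, q.valuation_lt_one_iff_mem]
  have hle : ∀ a : 𝓞 L, V.valuation ((a : L) : AlgebraicClosure F) ≤ 1 := fun a =>
    (V.valuation_le_one_iff _).2 ((hV (a : L)).2 (q.valuation_le_one a))
  have hΔV : vo V W₀.Δ = 1 := by
    refine le_antisymm (vo_le V _) (not_lt.1 fun h => hΔq ((hval _).1 ?_))
    exact h
  have hG : GV A B V := r_gv W₀ hA hB hV2 hV3 hΔV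
  obtain ⟨s, hs, hsd, hsf⟩ := H13X.exists_frobK L hV
  obtain ⟨Q, hQ⟩ : ∃ Q, Q = Ideal.absNorm q.asIdeal := ⟨_, rfl⟩
  rw [← hQ] at hX hsf
  have hQ2 : 2 ≤ Q := by rw [hQ]; exact CHEB.two_le_Nm q
  have hact : ∀ T : Pt (WAB A B) (AlgebraicClosure F), p • T = 0 → ac (WAB A B) σ T = ac (WAB A B) s T := by
    intro T hT
    by_cases hT0 : T = 0
    · rw [hT0, map_zero, map_zero]
    have hTS : T ∈ ST := (hST T).2 ⟨by rw [act_nat (act := act)]; exact hT, hT0⟩
    refine r_act hcma hG hVp σ s Q hsf hT (fun h => hX _ ?_ h) (fun h => hX _ ?_ h)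
    · exact Finset.mem_insert_of_mem (Finset.mem_insert_of_mem (Finset.mem_union_left _ (Finset.mem_image_of_mem _ hTS)))
    · exact Finset.mem_insert_of_mem (Finset.mem_insert_of_mem (Finset.mem_union_right _ (Finset.mem_image_of_mem _ hTS)))
  have hnorm : p ^ (k + 1) ∣ Q - 1 := by
    have hζ1 : V.valuation ζ = 1 := by
      have h1 : V.valuation ζ ^ p ^ (k + 1) = 1 := by rw [← map_pow, hζ.pow_eq_one, map_one]
      exact (pow_eq_one_iff_of_nonneg zero_le (pow_ne_zero _ hpp.ne_zero)).1 h1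
    have h1 := hX ζ (Finset.mem_insert_of_mem (Finset.mem_insert_self _ _)) ((V.valuation_le_one_iff _).1 hζ1.le)
    rw [hσ1 ζ hζ.pow_eq_one] at h1
    refine (hζ.pow_eq_one_iff_dvd _).1 (H13T.c3_one V (p := p ^ (k + 1)) ?_ ?_ ?_)
    · rw [Nat.cast_pow, map_pow, hVp, one_pow]
      exact lt_irrefl _
    · rw [← pow_mul, mul_comm, pow_mul, hζ.pow_eq_one, one_pow]
    · have e1 : ζ - ζ ^ Q = -(ζ * (ζ ^ (Q - 1) - 1)) := by
        have e2 : ζ ^ Q = ζ * ζ ^ (Q - 1) := by rw [← pow_succ']; congr 1; omega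
        rw [e2]
        ring
      rw [e1, Valuation.map_neg, map_mul, hζ1, one_mul] at h1
      exact h1
  refine ⟨q, hqS, ⟨hΔq, fun hdvd => ?_⟩, hyq, ?_, ?_⟩
  · obtain ⟨T, hT0, hT, hfT⟩ := H13R.lk_decR hcma W₀ hΔ0 hA hB L hΔq hV hpp hp.five hpq hdvd
    exact hT0 (hσ2 T hT (by rw [hact T hT]; exact hfT s ⟨hs, hsd⟩))
  · rw [← hQ]
    exact (pow_dvd_pow p (Nat.le_succ k)).trans hnorm
  · -- the power residue
    rintro ⟨x, hx⟩
    have hy1 : V.valuation ((y : L) : AlgebraicClosure F) = 1 :=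
      le_antisymm (hle y) (not_lt.1 fun h => hyq ((hval y).1 h))
    have hz1 : V.valuation z = 1 := by
      have h1 : V.valuation z ^ p = 1 := by rw [← map_pow, hz, hy1]
      exact (pow_eq_one_iff_of_nonneg zero_le hpp.ne_zero).1 h1
    have hzV : z ∈ V := (V.valuation_le_one_iff _).1 hz1.le
    have hz0 : z ≠ 0 := by
      rintro rfl
      rw [map_zero] at hz1
      exact zero_ne_one hz1
    have hxq : x ∉ q.asIdeal := by
      intro h
      apply hyq
      have h2 : x ^ p ∈ q.asIdeal := Ideal.pow_mem_of_mem _ h p hpp.pos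
      have h3 := q.asIdeal.sub_mem h2 hx
      rwa [sub_sub_cancel] at h3
    obtain ⟨n, hn⟩ : p ∣ Q - 1 := (dvd_pow_self p (Nat.succ_ne_zero k)).trans hnorm
    have hxQ : x ^ (Q - 1) - 1 ∈ q.asIdeal := by
      have hmax : q.asIdeal.IsMaximal := q.isMaximal
      letI : Field (𝓞 L ⧸ q.asIdeal) := Ideal.Quotient.field q.asIdeal
      have hf : Finite (𝓞 L ⧸ q.asIdeal) := Ideal.finiteQuotientOfFreeOfNeBot q.asIdeal q.ne_bot
      letI : Fintype (𝓞 L ⧸ q.asIdeal) := Fintype.ofFinite _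
      have hc : Fintype.card (𝓞 L ⧸ q.asIdeal) = Q := by
        rw [hQ, ← Nat.card_eq_fintype_card, Ideal.absNorm_apply, Submodule.cardQuot_apply]
      have h1 : Ideal.Quotient.mk q.asIdeal x ≠ 0 := fun h => hxq (Ideal.Quotient.eq_zero_iff_mem.1 h)
      have h2 := FiniteField.pow_card_sub_one_eq_one _ h1
      rw [hc] at h2
      rw [← Ideal.Quotient.eq_zero_iff_mem, map_sub, map_pow, map_one, h2, sub_self]
    have hyn : y ^ n - 1 ∈ q.asIdeal := by
      have h1 : (x ^ p) ^ n - y ^ n ∈ q.asIdeal := Ideal.mem_of_dvd _ (sub_dvd_pow_sub_pow _ _ _) hx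
      rw [← pow_mul, ← hn] at h1
      have h2 := q.asIdeal.sub_mem hxQ h1
      rwa [sub_sub_sub_cancel_left] at h2
    have hzQ : V.valuation (z ^ Q - z) < 1 := by
      have e1 : z ^ Q - z = z * (((y ^ n - 1 : 𝓞 L) : L) : AlgebraicClosure F) := by
        have e2 : z ^ Q = z * z ^ (Q - 1) := by rw [← pow_succ']; congr 1; omega
        rw [e2, hn, pow_mul, hz]
        push_cast
        ring
      rw [e1, map_mul, hz1, one_mul]
      exact (hval _).2 hyn
    have h1 := hX z (Finset.mem_insert_self _ _) hzV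
    have h2 : V.valuation (σ z - z) < 1 := by
      have h3 := V.valuation.map_add_lt h1 hzQ
      rwa [sub_add_sub_cancel] at h3
    apply hσ3
    rw [← div_eq_one_iff_eq hz0]
    refine H13T.c3_one V (p := p) ?_ ?_ ?_
    · rw [hVp]
      exact lt_irrefl _
    · rw [div_pow, ← map_pow, hz, (IntermediateField.mem_fixingSubgroup_iff L σ).1 hσ _ (y : L).2, div_self]
      intro h
      rw [h, map_zero] at hy1
      exact zero_ne_one hy1
    · rw [← div_self hz0, ← sub_div, map_div₀, hz1, div_one]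
      exact h2

/-- There is no root of unity of order p. -/
theorem mu {F : Type} [Field F] [NumberField F] [IQ F] {W₀ : WeierstrassCurve (𝓞 F)} {Om : ℂ} {m : Ideal (𝓞 F)}
    {ψ : Ideal (𝓞 F) →*₀ 𝓞 F} {p : ℕ} (hH : BaseH F W₀ Om m ψ) (hp : PrimeH F W₀ p)
    (L : IntermediateField F (AlgebraicClosure F)) [NumberField L] (hU : UnrP p L) (z : 𝓞 L) (hz : z ^ p = 1) : z = 1 := by
  classical
  obtain ⟨A, B, j, act, hA, hB, dta⟩ := H13T.exists_dta hH hp
  have hchar : CharZero (AlgebraicClosure F) := charZero_of_injective_algebraMap (algebraMap F (AlgebraicClosure F)).injective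
  have hNb := H13R.nb_ofR hp.prime hp.unr hU
  obtain ⟨s, hs, -, h2⟩ := c_two dta L.fixingSubgroup hNb.inert
  have h1 : ((z : L) : AlgebraicClosure F) ^ p = 1 := by
    have h3 := congrArg (fun t : 𝓞 L => ((t : L) : AlgebraicClosure F)) hz
    push_cast at h3
    exact h3
  have h3 := h2 _ h1 ((IntermediateField.mem_fixingSubgroup_iff L s).1 hs _ (z : L).2)
  apply RingOfIntegers.ext
  apply Subtype.ext
  exact h3

end H55X
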